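import Mathlib

open MeasureTheory Set Function
open scoped ComplexConjugate ENNReal NNReal

noncomputable section

set_option linter.unusedSectionVars false

namespace Wav

variable {ι : Type*} [Fintype ι]

/-- integer vectors as real vectors -/
def zv (m : ι → ℤ) : ι → ℝ := fun i => (m i : ℝ)

@[simp] lemma zv_apply (m : ι → ℤ) (i : ι) : zv m i = (m i : ℝ) := rfl

lemma zv_add (m k : ι → ℤ) : zv (m + k) = zv m + zv k := by
  funext i; simp [zv]

lemma zv_neg (m : ι → ℤ) : zv (-m) = - zv m := by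
  funext i; simp [zv]

/-- the half-open unit cube -/
def cube (ι : Type*) : Set (ι → ℝ) := {x | ∀ i, x i ∈ Ioc (0 : ℝ) (0 + 1)}

lemma measurableSet_cube : MeasurableSet (cube ι) := by
  have : cube ι = Set.pi univ (fun _ => Ioc (0 : ℝ) (0 + 1)) := by
    ext x; simp [cube]
  rw [this]
  exact MeasurableSet.univ_pi fun _ => measurableSet_Ioc

/-- the translated cubes -/
def tcube (m : ι → ℤ) : Set (ι → ℝ) := (fun x => x - zv m) ⁻¹' (cube ι)

lemma measurableSet_tcube (m : ι → ℤ) : MeasurableSet (tcube m) :=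
  measurableSet_cube.preimage (measurable_id.sub_const _)

lemma iUnion_tcube : (⋃ m : ι → ℤ, tcube m) = univ := by
  rw [eq_univ_iff_forall]
  intro x
  rw [mem_iUnion]
  refine ⟨fun i => ⌈x i⌉ - 1, ?_⟩
  intro i
  have h1 := Int.ceil_lt_add_one (x i)
  have h2 := Int.le_ceil (x i)
  simp only [Pi.sub_apply, zv_apply, mem_Ioc, Int.cast_sub, Int.cast_one]
  constructor <;> linarith

lemma pairwise_disjoint_tcube : Pairwise (Function.onFun Disjoint (tcube (ι := ι))) := by
  intro m k hmk
  rw [Function.onFun, Set.disjoint_left]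
  intro x hx hx'
  apply hmk
  funext i
  have h1 := hx i
  have h2 := hx' i
  simp only [Pi.sub_apply, zv_apply, mem_Ioc] at h1 h2
  have h3 : (m i : ℝ) < k i + 1 := by linarith [h1.1, h2.2]
  have h4 : (k i : ℝ) < m i + 1 := by linarith [h1.2, h2.1]
  have h3' : m i < k i + 1 := by exact_mod_cast h3
  have h4' : k i < m i + 1 := by exact_mod_cast h4
  omega

lemma mp_add (m : ι → ℤ) : MeasurePreserving (fun x : ι → ℝ => x + zv m) volume volume :=
  measurePreserving_add_right volume (zv m)

lemma me_add (m : ι → ℤ) : MeasurableEmbedding (fun x : ι → ℝ => x + zv m) :=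
  (MeasurableEquiv.addRight (zv m)).measurableEmbedding

lemma preimage_tcube (m : ι → ℤ) : (fun x : ι → ℝ => x + zv m) ⁻¹' (tcube m) = cube ι := by
  ext x; simp [tcube]

lemma setLIntegral_tcube (m : ι → ℤ) (f : (ι → ℝ) → ℝ≥0∞) :
    ∫⁻ x in tcube m, f x = ∫⁻ x in cube ι, f (x + zv m) := by
  rw [← (mp_add m).setLIntegral_comp_preimage_emb (me_add m), preimage_tcube]

lemma setIntegral_tcube {F : Type*} [NormedAddCommGroup F] [NormedSpace ℝ F]
    (m : ι → ℤ) (f : (ι → ℝ) → F) :
    ∫ x in tcube m, f x = ∫ x in cube ι, f (x + zv m) := by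
  rw [← (mp_add m).setIntegral_preimage_emb (me_add m), preimage_tcube]

theorem lintegral_unfold (f : (ι → ℝ) → ℝ≥0∞) :
    ∫⁻ x, f x = ∑' m : ι → ℤ, ∫⁻ x in cube ι, f (x + zv m) := by
  classical
  rw [← setLIntegral_univ, ← iUnion_tcube, lintegral_iUnion (fun m => measurableSet_tcube m)
    pairwise_disjoint_tcube]
  simp_rw [setLIntegral_tcube]

theorem integral_unfold {F : Type*} [NormedAddCommGroup F] [NormedSpace ℝ F] [CompleteSpace F]
    {f : (ι → ℝ) → F} (hf : Integrable f) :
    HasSum (fun m : ι → ℤ => ∫ x in cube ι, f (x + zv m)) (∫ x, f x) := by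
  classical
  have h := hasSum_integral_iUnion (f := f) (μ := volume) (s := tcube (ι := ι))
    (fun m => measurableSet_tcube m) pairwise_disjoint_tcube
    (by rw [iUnion_tcube]; exact hf.integrableOn)
  rw [iUnion_tcube, setIntegral_univ] at h
  simpa only [setIntegral_tcube] using h

/-- periodization -/
def per {F : Type*} [AddCommMonoid F] [TopologicalSpace F] (f : (ι → ℝ) → F) (x : ι → ℝ) : F :=
  ∑' m : ι → ℤ, f (x + zv m)

lemma aem_shift {f : (ι → ℝ) → ℝ≥0∞} (hf : AEMeasurable f) (m : ι → ℤ) :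
    AEMeasurable (fun x => f (x + zv m)) :=
  hf.comp_quasiMeasurePreserving (mp_add m).quasiMeasurePreserving

lemma aesm_shift {F : Type*} [TopologicalSpace F] {f : (ι → ℝ) → F}
    (hf : AEStronglyMeasurable f volume) (m : ι → ℤ) :
    AEStronglyMeasurable (fun x => f (x + zv m)) volume :=
  hf.comp_quasiMeasurePreserving (mp_add m).quasiMeasurePreserving

theorem lintegral_per {f : (ι → ℝ) → ℝ≥0∞} (hf : AEMeasurable f) :
    ∫⁻ x in cube ι, per f x = ∫⁻ x, f x := by
  rw [lintegral_unfold f]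
  unfold per
  rw [lintegral_tsum]
  intro m
  exact (aem_shift hf m).restrict

/-- a.e. absolute convergence of the periodization -/
theorem ae_summable {f : (ι → ℝ) → ℂ} (hf : Integrable f) :
    ∀ᵐ x ∂(volume.restrict (cube ι)), Summable (fun m : ι → ℤ => ‖f (x + zv m)‖) := by
  have h1 : ∫⁻ x in cube ι, per (fun y => ‖f y‖ₑ) x ≠ ∞ := by
    rw [lintegral_per hf.aestronglyMeasurable.enorm]
    exact hf.hasFiniteIntegral.ne
  have h2 : AEMeasurable (per (fun y => ‖f y‖ₑ)) (volume.restrict (cube ι)) := by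
    unfold per
    exact AEMeasurable.tsum fun m =>
      (aem_shift hf.aestronglyMeasurable.enorm m).restrict
  filter_upwards [ae_lt_top' h2 h1] with x hx
  have h3 : (∑' m : ι → ℤ, ‖f (x + zv m)‖ₑ) ≠ ∞ := hx.ne
  have h4 : Summable (fun m : ι → ℤ => ‖f (x + zv m)‖₊) := by
    apply ENNReal.tsum_coe_ne_top_iff_summable.1
    simpa [enorm_eq_nnnorm] using h3
  simpa using NNReal.summable_coe.2 h4

/-- Fubini-type unfolding for an integrable function times a bounded continuous periodic one -/
theorem integral_per_mul {f : (ι → ℝ) → ℂ} (hf : Integrable f) {e : (ι → ℝ) → ℂ}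
    (he : Continuous e) (hb : ∀ x, ‖e x‖ ≤ 1) (hper : ∀ x (m : ι → ℤ), e (x + zv m) = e x) :
    ∫ x in cube ι, e x * per f x = ∫ x, e x * f x := by
  have hef : Integrable (fun x => e x * f x) := by
    refine hf.bdd_mul (c := 1) he.aestronglyMeasurable (Filter.Eventually.of_forall hb)
  have h := integral_unfold hef
  rw [← h.tsum_eq]
  have h2 : ∀ᵐ x ∂(volume.restrict (cube ι)), e x * per f x
      = ∑' m : ι → ℤ, e (x + zv m) * f (x + zv m) := by
    filter_upwards [ae_summable hf] with x hx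
    unfold per
    simp_rw [hper]
    rw [tsum_mul_left]
  rw [integral_congr_ae h2]
  rw [integral_tsum]
  · intro m
    exact (aesm_shift hef.aestronglyMeasurable m).restrict
  · have := lintegral_unfold (fun x => ‖e x * f x‖ₑ)
    rw [← this]
    exact hef.hasFiniteIntegral.ne

/-! ### Parseval -/

/-- the exponential `e^{2 pi i k.x}` -/
def chr (k : ι → ℤ) (x : ι → ℝ) : ℂ :=
  Complex.exp (2 * Real.pi * Complex.I * ((∑ i, (k i : ℝ) * x i : ℝ) : ℂ))

lemma norm_chr (k : ι → ℤ) (x : ι → ℝ) : ‖chr k x‖ = 1 := by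
  unfold chr
  rw [show (2 * Real.pi * Complex.I * ((∑ i, (k i : ℝ) * x i : ℝ) : ℂ) : ℂ)
      = ((2 * Real.pi * (∑ i, (k i : ℝ) * x i) : ℝ) : ℂ) * Complex.I by push_cast; ring]
  exact Complex.norm_exp_ofReal_mul_I _

lemma continuous_chr (k : ι → ℤ) : Continuous (chr k) := by
  unfold chr
  fun_prop

lemma chr_periodic (k : ι → ℤ) (x : ι → ℝ) (m : ι → ℤ) : chr k (x + zv m) = chr k x := by
  unfold chr
  rw [Complex.exp_eq_exp_iff_exists_int]
  refine ⟨∑ i, k i * m i, ?_⟩
  simp only [Pi.add_apply, zv_apply, mul_add, Finset.sum_add_distrib]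
  push_cast
  ring

lemma mFourier_coe (k : ι → ℤ) (x : ι → ℝ) :
    UnitAddTorus.mFourier k (fun i => ((x i : ℝ) : UnitAddCircle)) = chr k x := by
  simp only [UnitAddTorus.mFourier, ContinuousMap.coe_mk, chr, fourier_coe_apply]
  rw [← Complex.exp_sum]
  congr 1
  push_cast
  rw [Finset.mul_sum]
  refine Finset.sum_congr rfl fun i _ => ?_
  ring

/-- representative in the cube -/
def rep (y : UnitAddTorus ι) : ι → ℝ := fun i => ((AddCircle.equivIoc (1 : ℝ) 0 (y i) : Ioc (0:ℝ) (0+1)) : ℝ)

lemma rep_coe_of_mem {x : ι → ℝ} (hx : x ∈ cube ι) :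
    rep (fun i => ((x i : ℝ) : UnitAddCircle)) = x := by
  funext i
  exact AddCircle.equivIoc_coe_of_mem (hx i)

lemma coe_rep (y : UnitAddTorus ι) : (fun i => ((rep y i : ℝ) : UnitAddCircle)) = y := by
  funext i
  exact AddCircle.coe_equivIoc

local instance : MeasureSpace UnitAddCircle := ⟨AddCircle.haarAddCircle⟩

local instance : Measure.IsAddHaarMeasure (volume : Measure UnitAddCircle) :=
  inferInstanceAs (Measure.IsAddHaarMeasure AddCircle.haarAddCircle)

local instance : IsProbabilityMeasure (volume : Measure UnitAddCircle) :=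
  inferInstanceAs (IsProbabilityMeasure AddCircle.haarAddCircle)

lemma rep_mp : MeasurePreserving (rep (ι := ι)) volume (volume.restrict (cube ι)) := by
  have h1 := UnitAddTorus.measurePreserving_equivPiIoc (d := ι) (0 : ι → ℝ)
  have hm : MeasurableSet {x : ι → ℝ | ∀ i, x i ∈ Ioc ((0 : ι → ℝ) i) ((0 : ι → ℝ) i + 1)} := by
    simpa [cube] using measurableSet_cube (ι := ι)
  have h2 : MeasurePreserving (Subtype.val :
      {x : ι → ℝ // ∀ i, x i ∈ Ioc ((0 : ι → ℝ) i) ((0 : ι → ℝ) i + 1)} → (ι → ℝ))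
      (Measure.comap Subtype.val volume) (volume.restrict (cube ι)) := by
    refine ⟨measurable_subtype_coe, ?_⟩
    exact map_comap_subtype_coe hm volume
  exact h2.comp h1

/-- function on the torus from a function on the cube -/
def tor (P : (ι → ℝ) → ℂ) (y : UnitAddTorus ι) : ℂ := P (rep y)

lemma mFourierCoeff_tor (P : (ι → ℝ) → ℂ) (k : ι → ℤ) :
    UnitAddTorus.mFourierCoeff (tor P) k = ∫ x in cube ι, chr (-k) x * P x := by
  rw [UnitAddTorus.mFourierCoeff_eq_integral _ _ (0 : ι → ℝ)]
  refine setIntegral_congr_fun (g := fun x => chr (-k) x * P x) ?_ ?_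
  · simpa [cube] using measurableSet_cube (ι := ι)
  · intro x hx
    have hx' : x ∈ cube ι := hx
    simp only [mFourier_coe, tor, rep_coe_of_mem hx', smul_eq_mul]

theorem parseval_cube {P : (ι → ℝ) → ℂ} (hP : MemLp P 2 (volume.restrict (cube ι))) :
    HasSum (fun k : ι → ℤ => ‖∫ x in cube ι, chr k x * P x‖ ^ 2) (∫ x in cube ι, ‖P x‖ ^ 2) := by
  have hT : MemLp (tor P) 2 (volume : Measure (UnitAddTorus ι)) :=
    hP.comp_measurePreserving rep_mp
  have h := UnitAddTorus.hasSum_sq_mFourierCoeff (hT.toLp (tor P))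
  have h1 : ∀ k, UnitAddTorus.mFourierCoeff (hT.toLp (tor P)) k
      = ∫ x in cube ι, chr (-k) x * P x := by
    intro k
    rw [← mFourierCoeff_tor]
    unfold UnitAddTorus.mFourierCoeff
    refine integral_congr_ae ?_
    filter_upwards [hT.coeFn_toLp] with y hy
    rw [hy]
  have h2 : ∫ t : UnitAddTorus ι, ‖(hT.toLp (tor P)) t‖ ^ 2 = ∫ x in cube ι, ‖P x‖ ^ 2 := by
    have e1 : ∫ t : UnitAddTorus ι, ‖(hT.toLp (tor P)) t‖ ^ 2
        = ∫ t : UnitAddTorus ι, ‖tor P t‖ ^ 2 := by
      refine integral_congr_ae ?_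
      filter_upwards [hT.coeFn_toLp] with y hy
      rw [hy]
    rw [e1]
    have := rep_mp (ι := ι)
    rw [← this.map_eq, integral_map this.measurable.aemeasurable]
    · rfl
    · rw [this.map_eq]
      exact (hP.aestronglyMeasurable.norm.pow 2)
  rw [h2] at h
  simp_rw [h1] at h
  have := (Equiv.neg (ι → ℤ)).hasSum_iff.2 h
  simpa [Function.comp_def] using this

theorem parseval_per {F : (ι → ℝ) → ℂ} (hF : Integrable F)
    (hP : MemLp (per F) 2 (volume.restrict (cube ι))) :
    HasSum (fun k : ι → ℤ => ‖∫ x, chr k x * F x‖ ^ 2) (∫ x in cube ι, ‖per F x‖ ^ 2) := by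
  have h := parseval_cube hP
  simp_rw [fun k => integral_per_mul hF (continuous_chr k) (fun x => (norm_chr k x).le)
    (chr_periodic k)] at h
  exact h

/-- uniqueness of Fourier coefficients -/
theorem ae_eq_of_coeff {P Q : (ι → ℝ) → ℂ} (hP : MemLp P 2 (volume.restrict (cube ι)))
    (hQ : MemLp Q 2 (volume.restrict (cube ι)))
    (h : ∀ k : ι → ℤ, ∫ x in cube ι, chr k x * P x = ∫ x in cube ι, chr k x * Q x) :
    P =ᵐ[volume.restrict (cube ι)] Q := by
  have h1 := parseval_cube (hP.sub hQ)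
  have h2 : ∀ k : ι → ℤ, ∫ x in cube ι, chr k x * (P - Q) x = 0 := by
    intro k
    have e1 : ∀ x, chr k x * (P - Q) x = chr k x * P x - chr k x * Q x := by
      intro x; simp [mul_sub]
    simp_rw [e1]
    have fin : IsFiniteMeasure (volume.restrict (cube ι)) := by
      have : volume.restrict (cube ι) = Measure.map rep (volume : Measure (UnitAddTorus ι)) :=
        rep_mp.map_eq.symm
      rw [this]
      infer_instance
    have i1 : Integrable (fun x => chr k x * P x) (volume.restrict (cube ι)) :=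
      (hP.integrable (by norm_num)).bdd_mul (c := 1) (continuous_chr k).aestronglyMeasurable
        (Filter.Eventually.of_forall fun x => (norm_chr k x).le)
    have i2 : Integrable (fun x => chr k x * Q x) (volume.restrict (cube ι)) :=
      (hQ.integrable (by norm_num)).bdd_mul (c := 1) (continuous_chr k).aestronglyMeasurable
        (Filter.Eventually.of_forall fun x => (norm_chr k x).le)
    rw [integral_sub i1 i2, h k, sub_self]
  simp_rw [h2] at h1
  simp only [norm_zero, ne_eq, OfNat.ofNat_ne_zero, not_false_eq_true, zero_pow] at h1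
  have h3 : ∫ x in cube ι, ‖(P - Q) x‖ ^ 2 = 0 := (h1.unique hasSum_zero)
  have h4 : Integrable (fun x => ‖(P - Q) x‖ ^ 2) (volume.restrict (cube ι)) :=
    (memLp_two_iff_integrable_sq_norm (hP.sub hQ).aestronglyMeasurable).1 (hP.sub hQ)
  rw [integral_eq_zero_iff_of_nonneg (fun x => by positivity) h4] at h3
  filter_upwards [h3] with x hx
  have : ‖(P - Q) x‖ = 0 := by simpa using hx
  rw [norm_eq_zero] at this
  simpa [sub_eq_zero] using this

end Wav
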