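import Mathlib

/-!
# Well-localized orthonormal wavelets for real dilation matrices: definitions
-/

open MeasureTheory
open scoped FourierTransform RealInnerProductSpace Matrix

noncomputable section

namespace Wav

/-- Euclidean space of dimension `n`. -/
abbrev E (n : ℕ) := EuclideanSpace ℝ (Fin n)

/-- The action of a matrix on Euclidean space. -/
def act {n : ℕ} (M : Matrix (Fin n) (Fin n) ℝ) (x : E n) : E n := WithLp.toLp 2 (M *ᵥ x.ofLp)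

/-- Integer vectors as points of Euclidean space. -/
def ivec {n : ℕ} (k : Fin n → ℤ) : E n := WithLp.toLp 2 fun i => (k i : ℝ)

/-- A real matrix is expansive if every complex eigenvalue has absolute value greater than one. -/
def Expansive {n : ℕ} (A : Matrix (Fin n) (Fin n) ℝ) : Prop :=
  ∀ z ∈ spectrum ℂ (A.map (algebraMap ℝ ℂ)), 1 < ‖z‖

/-- The function `|det A|^(j/2) ψ(A^j x - k)`. -/
def affine {n : ℕ} (A : Matrix (Fin n) (Fin n) ℝ) (ψ : E n → ℂ) (j : ℤ) (k : Fin n → ℤ)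
    (x : E n) : ℂ :=
  ((|A.det| ^ ((j : ℝ) / 2) : ℝ) : ℂ) * ψ (act (A ^ j) x - ivec k)

/-- The functions `ψ 0, …, ψ (L-1)` form an orthonormal wavelet for `(A, ℤⁿ)`: their affine system
is an orthonormal basis of `L²(ℝⁿ)`. -/
def IsONWavelet {n L : ℕ} (A : Matrix (Fin n) (Fin n) ℝ) (ψ : Fin L → E n → ℂ) : Prop :=
  ∃ b : HilbertBasis (Fin L × ℤ × (Fin n → ℤ)) ℂ (Lp ℂ 2 (volume : Measure (E n))),
    ∀ l j k, (b (l, j, k) : E n → ℂ) =ᵐ[volume] affine A (ψ l) j k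

/-- `ψ` is square integrable, `ψ(x) = O(|x|^(-N))` and its Fourier transform is `O(|ξ|^(-N))`.
For `N > n` the function `ψ` is integrable, so that `𝓕 ψ` is its Fourier transform. -/
structure WellLocalized {n : ℕ} (N : ℝ) (ψ : E n → ℂ) : Prop where
  memLp : MemLp ψ 2 volume
  decay : ∃ C R : ℝ, ∀ᵐ x : E n, R ≤ ‖x‖ → ‖ψ x‖ ≤ C * ‖x‖ ^ (-N)
  fourier : ∃ C R : ℝ, ∀ ξ : E n, R ≤ ‖ξ‖ → ‖𝓕 ψ ξ‖ ≤ C * ‖ξ‖ ^ (-N)

/-- The character `x ↦ exp(2πi x)`. -/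
def ee (x : ℝ) : ℂ := Complex.exp (2 * Real.pi * Complex.I * x)

/-- The Fourier transform of `affine A ψ j k`, where `Ψ` is the Fourier transform of `ψ`. -/
def faff {n : ℕ} (A : Matrix (Fin n) (Fin n) ℝ) (Ψ : E n → ℂ) (j : ℤ) (k : Fin n → ℤ)
    (ξ : E n) : ℂ :=
  ((|A.det| ^ (-(j : ℝ) / 2) : ℝ) : ℂ) * ee (-⟪act (A ^ (-j)) (ivec k), ξ⟫) *
    Ψ (act (A ^ (-j))ᵀ ξ)

end Wav
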