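import Pool.Agent.Helper54.Wav.Stmt
import Pool.Agent.Helper98.Wav.N1
import Pool.Agent.Helper26.Wav.N2

/-!
# Necessary conditions for well-localized orthonormal wavelets
-/

open MeasureTheory
open scoped FourierTransform RealInnerProductSpace Matrix

noncomputable section

namespace WavN

variable {n : ℕ}

/-- `ψ(x) = O(|x|^(-N))`, almost everywhere. -/
def SpaceDecay (N : ℝ) (ψ : Wav.E n → ℂ) : Prop :=
  ∃ C R : ℝ, ∀ᵐ x : Wav.E n, R ≤ ‖x‖ → ‖ψ x‖ ≤ C * ‖x‖ ^ (-N)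

/-- The Fourier transform of `ψ` is `O(|ξ|^(-N))`. -/
def FreqDecay (N : ℝ) (ψ : Wav.E n → ℂ) : Prop :=
  ∃ C R : ℝ, ∀ ξ : Wav.E n, R ≤ ‖ξ‖ → ‖𝓕 ψ ξ‖ ≤ C * ‖ξ‖ ^ (-N)

/-- `ψ` is well-localized with exponent `N`. -/
def WellLoc (N : ℝ) (ψ : Wav.E n → ℂ) : Prop :=
  Pool.Agent.Helper54.WavS.SqInt ψ ∧ SpaceDecay N ψ ∧ FreqDecay N ψ

/-- There is an orthonormal wavelet for `(A, ℤⁿ)` with finitely many generators, all of them
well-localized with exponent `N`. -/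
def HasWavelet (N : ℝ) (A : Matrix (Fin n) (Fin n) ℝ) : Prop :=
  ∃ (L : ℕ) (ψ : Fin L → Wav.E n → ℂ),
    (∀ l, WellLoc N (ψ l)) ∧ Pool.Agent.Helper54.WavS.IsONWavelet A ψ

/-- The lattice `(Aᵀ)^j ℤⁿ`. -/
def Lat (A : Matrix (Fin n) (Fin n) ℝ) (j : ℤ) : Set (Wav.E n) :=
  Set.range fun p : Fin n → ℤ => Wav.act (Aᵀ ^ j) (Wav.ivec p)

/-- The lattices with index in `F` meet the others in these vectors. -/
def Common (A : Matrix (Fin n) (Fin n) ℝ) (F : Set ℤ) : Set (Wav.E n) :=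
  {x | ∃ i ∈ F, ∃ j ∉ F, x ∈ Lat A i ∧ x ∈ Lat A j}

/-- The exponents `j` such that `ℤⁿ` and `(Aᵀ)^j ℤⁿ` have a common nonzero vector. -/
def Exps (A : Matrix (Fin n) (Fin n) ℝ) : Set ℤ :=
  {j | ∃ x, x ≠ 0 ∧ x ∈ Lat A 0 ∧ x ∈ Lat A j}

lemma wellLocalized_of {N : ℝ} {ψ : Wav.E n → ℂ} (h : WellLoc N ψ) : Wav.WellLocalized N ψ :=
  ⟨h.1, h.2.1, h.2.2⟩

theorem span_top {A : Matrix (Fin n) (Fin n) ℝ} (hA : Wav.Expansive A) {N : ℝ}
    (hN : (n : ℝ) < N) (hW : HasWavelet N A) (F : Set ℤ) (hF : F.Nonempty) (hFb : BddAbove F) :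
    Submodule.span ℝ (Common A F) = ⊤ := by
  by_contra hne
  have h1 : (Submodule.span ℝ (Common A F))ᗮ ≠ ⊥ := by
    intro h0
    exact hne ((Submodule.orthogonal_eq_bot_iff).1 h0)
  obtain ⟨v, hv, hv0⟩ := Submodule.exists_mem_ne_zero_of_ne_bot h1
  obtain ⟨L, ψ, hψ, hON⟩ := hW
  refine Wav.no_wavelet_of_bounded hA hN F hF hFb v hv0 ?_ ψ (fun l => wellLocalized_of (hψ l))
    ((Pool.Agent.Helper54.WavS.isONWavelet_iff _ _).1 hON)
  intro i hi j hj p q hpq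
  rw [Submodule.mem_orthogonal'] at hv
  exact hv _ (Submodule.subset_span ⟨i, hi, j, hj, ⟨p, rfl⟩, ⟨q, hpq.symm⟩⟩)

lemma act_inj' {M : Matrix (Fin n) (Fin n) ℝ} (hM : M.det ≠ 0) {x y : Wav.E n}
    (h : Wav.act M x = Wav.act M y) : x = y := Wav.act_inj hM h

lemma ivec_eq_zero {p : Fin n → ℤ} (h : (Wav.ivec p : Wav.E n) = 0) : p = 0 := by
  funext i
  have := congrArg (fun x : Wav.E n => x.ofLp i) h
  simpa [Wav.ivec] using this

theorem exps_closure (hn : 2 ≤ n) {A : Matrix (Fin n) (Fin n) ℝ} (hA : Wav.Expansive A) {N : ℝ}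
    (hN : (n : ℝ) < N) (hW : HasWavelet N A) : AddSubgroup.closure (Exps A) = ⊤ := by
  by_contra hne
  obtain ⟨L, ψ, hψ, hON⟩ := hW
  have hdet : A.det ≠ 0 := Wav.expansive_det hA
  have hdetT : Aᵀ.det ≠ 0 := by rwa [Matrix.det_transpose]
  have hu : IsUnit (Aᵀ).det := isUnit_iff_ne_zero.2 hdetT
  refine Wav.no_wavelet_of_gap hn hA hN (AddSubgroup.closure (Exps A) : Set ℤ)
    ⟨0, zero_mem _⟩ ?_ ?_ ψ (fun l => wellLocalized_of (hψ l))
    ((Pool.Agent.Helper54.WavS.isONWavelet_iff _ _).1 hON)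
  · rw [Set.nonempty_compl]
    intro h
    apply hne
    exact SetLike.coe_injective (by rw [h]; rfl)
  · intro i hi j hj p q hpq
    by_contra hp
    apply hj
    have hmem : j - i ∈ Exps A := by
      refine ⟨Wav.ivec p, fun h0 => hp (ivec_eq_zero h0), ⟨p, ?_⟩, ⟨q, ?_⟩⟩
      · simp only [zpow_zero]
        exact Wav.act_one _
      · simp only
        have e1 : Aᵀ ^ (j - i) = (Aᵀ ^ (-i)) * (Aᵀ ^ j) := by
          rw [← Matrix.zpow_add hu, neg_add_eq_sub]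
        rw [e1, Wav.act_mul, ← hpq, ← Wav.act_mul, ← Matrix.zpow_add hu]
        simp only [neg_add_cancel, zpow_zero]
        exact Wav.act_one _
    have h2 := AddSubgroup.add_mem _ (AddSubgroup.subset_closure hmem : j - i ∈ AddSubgroup.closure (Exps A)) hi
    rwa [sub_add_cancel] at h2

end WavN
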