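import Mathlib

/-!
# Smooth local cosine windows: cutoffs, kernels and the kernel identity
-/

open Real Set
open scoped ComplexConjugate

noncomputable section

namespace Wav

/-- even cutoff, equal to one for `|x| ≤ 1 - ε` and to zero for `|x| ≥ 1 + ε` -/
def mu (ε x : ℝ) : ℝ := Real.cos (π / 2 * Real.smoothTransition ((|x| - 1 + ε) / (2 * ε)))

/-- complementary cutoff -/
def nu (ε x : ℝ) : ℝ := Real.sin (π / 2 * Real.smoothTransition ((|x| - 1 + ε) / (2 * ε)))

lemma smoothTransition_symm (x : ℝ) :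
    Real.smoothTransition (1 - x) = 1 - Real.smoothTransition x := by
  unfold Real.smoothTransition
  have h := Real.smoothTransition.pos_denom x
  have h' : expNegInvGlue (1 - x) + expNegInvGlue (1 - (1 - x)) =
      expNegInvGlue x + expNegInvGlue (1 - x) := by
    rw [sub_sub_cancel, add_comm]
  rw [h', eq_sub_iff_add_eq, ← add_div, add_comm, div_self h.ne']

variable {ε : ℝ}

lemma mu_neg (x : ℝ) : mu ε (-x) = mu ε x := by simp [mu]

lemma nu_neg (x : ℝ) : nu ε (-x) = nu ε x := by simp [nu]

lemma mu_sq_add (x : ℝ) : mu ε x ^ 2 + nu ε x ^ 2 = 1 := Real.cos_sq_add_sin_sq _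

lemma mu_one (hε : 0 < ε) {x : ℝ} (h : |x| ≤ 1 - ε) : mu ε x = 1 := by
  unfold mu
  rw [Real.smoothTransition.zero_of_nonpos (div_nonpos_of_nonpos_of_nonneg (by linarith)
    (by linarith)), mul_zero, Real.cos_zero]

lemma nu_zero (hε : 0 < ε) {x : ℝ} (h : |x| ≤ 1 - ε) : nu ε x = 0 := by
  unfold nu
  rw [Real.smoothTransition.zero_of_nonpos (div_nonpos_of_nonpos_of_nonneg (by linarith)
    (by linarith)), mul_zero, Real.sin_zero]

lemma mu_zero (hε : 0 < ε) {x : ℝ} (h : 1 + ε ≤ |x|) : mu ε x = 0 := by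
  unfold mu
  rw [Real.smoothTransition.one_of_one_le (by rw [le_div_iff₀ (by linarith)]; linarith),
    mul_one, Real.cos_pi_div_two]

lemma nu_one (hε : 0 < ε) {x : ℝ} (h : 1 + ε ≤ |x|) : nu ε x = 1 := by
  unfold nu
  rw [Real.smoothTransition.one_of_one_le (by rw [le_div_iff₀ (by linarith)]; linarith),
    mul_one, Real.sin_pi_div_two]

lemma mu_refl (hε : 0 < ε) {x y : ℝ} (h : |x| + |y| = 2) : mu ε x = nu ε y := by
  unfold mu nu
  have e : (|x| - 1 + ε) / (2 * ε) = 1 - (|y| - 1 + ε) / (2 * ε) := by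
    field_simp
    linarith
  rw [e, smoothTransition_symm, mul_sub, mul_one, Real.cos_pi_div_two_sub]

lemma nu_refl (hε : 0 < ε) {x y : ℝ} (h : |x| + |y| = 2) : nu ε x = mu ε y :=
  (mu_refl hε (by rw [add_comm]; exact h)).symm

lemma lt_of_mu_ne (hε : 0 < ε) {x : ℝ} (h : mu ε x ≠ 0) : |x| < 1 + ε := by
  by_contra hc
  exact h (mu_zero hε (not_lt.mp hc))

lemma lt_of_nu_ne (hε : 0 < ε) {x : ℝ} (h : nu ε x ≠ 0) : 1 - ε < |x| := by
  by_contra hc
  exact h (nu_zero hε (not_lt.mp hc))

open Classical in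
/-- The kernel of the smooth projection onto `|x| < c`, at `(x, x + y)`. -/
def Kc (ε c x y : ℝ) : ℝ :=
  if 0 < c ∧ ∃ z : ℤ, y = 2 * c * z then mu ε (x / c) * mu ε ((x + y) / c) else 0

lemma Kc_scale (c x y : ℝ) {r : ℝ} (hr : r ≠ 0) :
    Kc ε c (x / r) (y / r) = Kc ε (|r| * c) x y := by
  unfold Kc
  have hr' : 0 < |r| := abs_pos.mpr hr
  by_cases hc : 0 < c
  · have hc' : 0 < |r| * c := mul_pos hr' hc
    have e1 : (0 < c ∧ ∃ z : ℤ, y / r = 2 * c * z) ↔
        (0 < |r| * c ∧ ∃ z : ℤ, y = 2 * (|r| * c) * z) := by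
      constructor
      · rintro ⟨_, z, hz⟩
        rw [div_eq_iff hr] at hz
        refine ⟨hc', ?_⟩
        rcases abs_choice r with h | h
        · exact ⟨z, by rw [hz, h]; ring⟩
        · refine ⟨-z, ?_⟩
          rw [hz, h]
          push_cast
          ring
      · rintro ⟨_, z, hz⟩
        refine ⟨hc, ?_⟩
        rcases abs_choice r with h | h
        · exact ⟨z, by rw [div_eq_iff hr, hz, h]; ring⟩
        · refine ⟨-z, ?_⟩
          rw [div_eq_iff hr, hz, h]
          push_cast
          ring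
    have e2 : ∀ w : ℝ, mu ε (w / r / c) = mu ε (w / (|r| * c)) := by
      intro w
      rcases abs_choice r with h | h
      · rw [h, div_div]
      · rw [h, div_div, ← mu_neg, ← div_neg, neg_mul]
    by_cases h : (0 < c ∧ ∃ z : ℤ, y / r = 2 * c * z)
    · rw [if_pos h, if_pos (e1.mp h), e2, ← add_div, e2]
    · rw [if_neg h, if_neg (fun h' => h (e1.mpr h'))]
  · rw [if_neg (fun h => hc h.1), if_neg (fun h => hc (pos_of_mul_pos_right h.1 hr'.le))]

lemma Kc_nonpos {c : ℝ} (hc : c ≤ 0) (x y : ℝ) : Kc ε c x y = 0 := by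
  unfold Kc
  rw [if_neg (fun h => absurd h.1 (not_lt.mpr hc))]

lemma Kc_out (hε : 0 < ε) {c x : ℝ} (h : (1 + ε) * c ≤ |x|) (y : ℝ) : Kc ε c x y = 0 := by
  unfold Kc
  split_ifs with hc
  · rw [mu_zero hε, zero_mul]
    rw [abs_div, abs_of_pos hc.1, le_div_iff₀ hc.1]
    exact h
  · rfl

lemma Kc_in (hε : 0 < ε) (hε1 : ε < 1) {c x : ℝ} (hc : 0 < c) (h : |x| ≤ (1 - ε) * c) (y : ℝ) :
    Kc ε c x y = if y = 0 then 1 else 0 := by
  unfold Kc
  have h1 : mu ε (x / c) = 1 := mu_one hε (by rw [abs_div, abs_of_pos hc, div_le_iff₀ hc]; exact h)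
  split_ifs with h2 hy hy
  · rw [hy, add_zero, h1, one_mul]
  · obtain ⟨_, z, hz⟩ := h2
    suffices hs : mu ε ((x + y) / c) = 0 by rw [hs, mul_zero]
    apply mu_zero hε
    have hz0 : z ≠ 0 := by
      rintro rfl
      apply hy
      rw [hz]
      simp
    have hz1 : (1 : ℝ) ≤ |(z : ℝ)| := by
      have := Int.one_le_abs hz0
      exact_mod_cast this
    have h3 : 2 * c ≤ |y| := by
      rw [hz, abs_mul, abs_of_pos (by linarith : (0 : ℝ) < 2 * c)]
      nlinarith
    rw [abs_div, abs_of_pos hc, le_div_iff₀ hc]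
    have h4 : |y| ≤ |x + y| + |x| := by
      have := abs_sub (x + y) x
      rwa [add_sub_cancel_left] at this
    linarith
  · exfalso
    apply h2
    refine ⟨hc, 0, ?_⟩
    rw [hy]
    simp
  · rfl

/-- A nonzero value of the kernel at `y ≠ 0` occurs only near the boundary points. -/
lemma Kc_ne (hε : 0 < ε) (hε1 : ε < 1) {c x y : ℝ} (h : Kc ε c x y ≠ 0) (hy : y ≠ 0) :
    0 < c ∧ |x| + |x + y| = 2 * c ∧ |y| = 2 * c ∧ (1 - ε) * c < |x| ∧ |x| < (1 + ε) * c ∧
      (1 - ε) * c < |x + y| ∧ |x + y| < (1 + ε) * c := by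
  unfold Kc at h
  split_ifs at h with h2
  swap
  · exact absurd rfl h
  obtain ⟨hc, z, hz⟩ := h2
  have a1 : |x| < (1 + ε) * c := by
    have := lt_of_mu_ne hε (left_ne_zero_of_mul h)
    rwa [abs_div, abs_of_pos hc, div_lt_iff₀ hc] at this
  have a2 : |x + y| < (1 + ε) * c := by
    have := lt_of_mu_ne hε (right_ne_zero_of_mul h)
    rwa [abs_div, abs_of_pos hc, div_lt_iff₀ hc] at this
  have hz0 : z ≠ 0 := by
    rintro rfl
    apply hy
    rw [hz]
    simp
  have hyabs : |y| = 2 * c * |(z : ℝ)| := by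
    rw [hz, abs_mul, abs_of_pos (by linarith : (0 : ℝ) < 2 * c)]
  have h4 : |y| ≤ |x + y| + |x| := by
    have := abs_sub (x + y) x
    rwa [add_sub_cancel_left] at this
  have hz2 : |(z : ℝ)| < 2 := by
    have h5 : 2 * c * |(z : ℝ)| < 2 * c * 2 := by
      rw [← hyabs]
      have : (1 + ε) * c < 2 * c := by nlinarith
      linarith
    exact lt_of_mul_lt_mul_left h5 (by linarith)
  have hz3 : |z| = 1 := by
    have h6 : |z| < 2 := by exact_mod_cast hz2
    have h7 := Int.one_le_abs hz0
    omega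
  have hz4 : |(z : ℝ)| = 1 := by exact_mod_cast hz3
  rw [hz4, mul_one] at hyabs
  have hsum : |x| + |x + y| = 2 * c := by
    rcases (abs_eq (by norm_num : (0 : ℤ) ≤ 1)).mp hz3 with h7 | h7
    · subst h7
      have hy1 : y = 2 * c := by rw [hz]; push_cast; ring
      have hx1 : x < 0 := by
        by_contra hx
        have hx := not_lt.mp hx
        rw [abs_of_nonneg (by linarith : 0 ≤ x + y)] at a2
        nlinarith
      have hx2 : 0 < x + y := by
        rw [abs_of_neg hx1] at a1
        nlinarith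
      rw [abs_of_neg hx1, abs_of_pos hx2]
      linarith
    · subst h7
      have hy1 : y = -(2 * c) := by rw [hz]; push_cast; ring
      have hx1 : 0 < x := by
        by_contra hx
        have hx := not_lt.mp hx
        rw [abs_of_nonpos (by linarith : x + y ≤ 0)] at a2
        nlinarith
      have hx2 : x + y < 0 := by
        rw [abs_of_pos hx1] at a1
        nlinarith
      rw [abs_of_pos hx1, abs_of_neg hx2]
      linarith
  refine ⟨hc, hsum, hyabs, ?_, a1, ?_, a2⟩
  · linarith
  · linarith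

/-- The phases. -/
def ph (m : ℕ) (x : ℝ) : ℂ :=
  (if Even m then (if 0 ≤ x then 1 else -1) else 1) * Complex.exp (π * Complex.I * x)

/-- The windows: `om m` is concentrated on `m/2 ≤ |x| ≤ (m+1)/2`. -/
def om (ε : ℝ) (m : ℕ) (x : ℝ) : ℂ :=
  if m = 0 then ((mu ε (2 * x) : ℝ) : ℂ)
  else ((mu ε (2 * x / (m + 1)) * nu ε (2 * x / m) : ℝ) : ℂ) * ph m x

lemma norm_ph (m : ℕ) (x : ℝ) : ‖ph m x‖ = 1 := by
  unfold ph
  rw [norm_mul]
  have h1 : ‖Complex.exp (π * Complex.I * x)‖ = 1 := by
    rw [show (π * Complex.I * x : ℂ) = ((π * x : ℝ) : ℂ) * Complex.I by push_cast; ring]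
    exact Complex.norm_exp_ofReal_mul_I _
  rw [h1, mul_one]
  split_ifs <;> simp

lemma exp_ph (x : ℝ) (k : ℤ) : Complex.exp (π * Complex.I * x) *
    conj (Complex.exp (π * Complex.I * ((x + k : ℝ) : ℂ))) = (-1) ^ k := by
  rw [← Complex.exp_conj, ← Complex.exp_add]
  have h1 : (π * Complex.I * x : ℂ) + conj (π * Complex.I * ((x + k : ℝ) : ℂ)) =
      ((-k : ℤ) : ℂ) * (π * Complex.I) := by
    simp only [map_mul, Complex.conj_ofReal, Complex.conj_I]
    push_cast
    ring
  rw [h1, Complex.exp_int_mul, Complex.exp_pi_mul_I, zpow_neg]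
  rcases Int.even_or_odd k with h | h
  · rw [h.neg_one_zpow, inv_one]
  · rw [h.neg_one_zpow]
    norm_num

lemma ph_same (m : ℕ) {x : ℝ} {k : ℤ} (h : (0 ≤ x ↔ 0 ≤ x + k)) :
    ph m x * conj (ph m (x + k)) = (-1) ^ k := by
  unfold ph
  rw [map_mul, mul_mul_mul_comm, exp_ph]
  by_cases hm : Even m
  · by_cases hx : 0 ≤ x
    · simp [hm, hx, h.mp hx]
    · have h2 : ¬ 0 ≤ x + k := fun h' => hx (h.mpr h')
      simp [hm, hx, h2]
  · simp [hm]

lemma ph_opp (m : ℕ) {x : ℝ} {k : ℤ} (h : (0 ≤ x ↔ ¬ 0 ≤ x + k)) :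
    ph m x * conj (ph m (x + k)) = (if Even m then -1 else 1) * (-1) ^ k := by
  unfold ph
  rw [map_mul, mul_mul_mul_comm, exp_ph]
  by_cases hm : Even m
  · by_cases hx : 0 ≤ x
    · simp [hm, hx, h.mp hx]
    · have : 0 ≤ x + k := by
        by_contra hc
        exact hx (h.mpr hc)
      simp [hm, hx, this]
  · simp [hm]

lemma om_zero (x : ℝ) : om ε 0 x = ((mu ε (2 * x) : ℝ) : ℂ) := by simp [om]

lemma om_pos {m : ℕ} (hm : m ≠ 0) (x : ℝ) :
    om ε m x = ((mu ε (2 * x / (m + 1)) * nu ε (2 * x / m) : ℝ) : ℂ) * ph m x := by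
  simp [om, hm]

/-- support of the windows -/
lemma om_supp (hε : 0 < ε) {m : ℕ} {x : ℝ} (h : om ε m x ≠ 0) :
    (1 - ε) * (m / 2) ≤ |x| ∧ |x| < (1 + ε) * ((m + 1) / 2) := by
  rcases Nat.eq_zero_or_pos m with rfl | hm
  · rw [om_zero] at h
    have h1 : mu ε (2 * x) ≠ 0 := fun h0 => h (by rw [h0]; simp)
    have := lt_of_mu_ne hε h1
    rw [abs_mul, abs_two] at this
    constructor
    · simp
    · push_cast
      linarith
  · rw [om_pos hm.ne'] at h
    have h1 : mu ε (2 * x / (m + 1)) ≠ 0 := fun h0 => h (by rw [h0]; simp)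
    have h2 : nu ε (2 * x / m) ≠ 0 := fun h0 => h (by rw [h0]; simp)
    have hm' : (0 : ℝ) < m := by exact_mod_cast hm
    have h3 := lt_of_mu_ne hε h1
    have h4 := lt_of_nu_ne hε h2
    rw [abs_div, abs_mul, abs_two, abs_of_pos (by linarith : (0 : ℝ) < m + 1),
      div_lt_iff₀ (by linarith)] at h3
    rw [abs_div, abs_mul, abs_two, abs_of_pos hm', lt_div_iff₀ hm'] at h4
    constructor <;> linarith

/-- The kernel identity. -/
theorem om_ker (hε : 0 < ε) {m : ℕ} (hm : ε * (2 * m + 3) ≤ 1) (x : ℝ) (k : ℤ) :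
    om ε m x * conj (om ε m (x + k)) =
      ((Kc ε ((m + 1) / 2) x k - Kc ε (m / 2) x k : ℝ) : ℂ) := by
  have hm0 : (0 : ℝ) ≤ m := Nat.cast_nonneg m
  have hε1 : ε < 1 := by nlinarith
  rcases Nat.eq_zero_or_pos m with rfl | hmpos
  · rw [om_zero, om_zero, Complex.conj_ofReal, ← Complex.ofReal_mul]
    congr 1
    have h1 : Kc ε (((0 : ℕ) : ℝ) / 2) x k = 0 := Kc_nonpos (by simp) _ _
    rw [h1, sub_zero]
    unfold Kc
    rw [if_pos ⟨by norm_num, k, by push_cast; ring⟩]
    congr 2 <;> push_cast <;> ring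
  have hm1 : (1 : ℝ) ≤ m := by exact_mod_cast hmpos
  have hm' : (0 : ℝ) < m := by linarith
  have hM : (0 : ℝ) < m + 1 := by linarith
  by_cases hk0 : k = 0
  · -- diagonal
    subst hk0
    rw [Int.cast_zero, add_zero, Complex.mul_conj, Complex.normSq_eq_norm_sq, om_pos hmpos.ne',
      norm_mul, norm_ph, mul_one, Complex.norm_real, Real.norm_eq_abs, sq_abs]
    congr 1
    unfold Kc
    rw [if_pos ⟨by linarith, 0, by simp⟩, if_pos ⟨by linarith, 0, by simp⟩, add_zero]
    have e1 : x / ((m + 1) / 2) = 2 * x / ((m : ℝ) + 1) := by field_simp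
    have e2 : x / ((m : ℝ) / 2) = 2 * x / m := by field_simp
    rw [e1, e2, mul_pow]
    by_cases h : mu ε (2 * x / m) = 0
    · have := mu_sq_add (ε := ε) (2 * x / m)
      rw [h] at this ⊢
      have h2 : nu ε (2 * x / m) ^ 2 = 1 := by linarith
      rw [h2]
      ring
    · have h1 := lt_of_mu_ne hε h
      rw [abs_div, abs_mul, abs_two, abs_of_pos hm', div_lt_iff₀ hm'] at h1
      have h2 : mu ε (2 * x / ((m : ℝ) + 1)) = 1 := by
        apply mu_one hε
        rw [abs_div, abs_mul, abs_two, abs_of_pos hM, div_le_iff₀ hM]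
        nlinarith
      have := mu_sq_add (ε := ε) (2 * x / m)
      rw [h2]
      linarith
  -- off diagonal
  have hk0' : (k : ℝ) ≠ 0 := by exact_mod_cast hk0
  by_cases hom : om ε m x * conj (om ε m (x + k)) = 0
  · -- both kernels vanish
    rw [hom]
    have hK : ∀ c : ℝ, (c = (m + 1) / 2 ∨ c = m / 2) → Kc ε c x k = 0 := by
      intro c hc
      by_contra hne
      obtain ⟨hc0, hs, hy, a1, a2, a3, a4⟩ := Kc_ne hε hε1 hne hk0'
      -- all four factors are nonzero
      have key : ∀ w : ℝ, (1 - ε) * c < |w| → |w| < (1 + ε) * c → ∀ w' : ℝ,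
          |w| + |w'| = 2 * c → mu ε (w' / c) ≠ 0 → mu ε (w / c) ≠ 0 → om ε m w ≠ 0 := by
        intro w b1 b2 w' b3 b4 b5
        rw [om_pos hmpos.ne']
        refine mul_ne_zero ?_ (fun h0 => by
          have := norm_ph m w
          rw [h0, norm_zero] at this
          exact zero_ne_one this)
        rw [Complex.ofReal_ne_zero]
        rcases hc with rfl | rfl
        · refine mul_ne_zero ?_ ?_
          · have : 2 * w / ((m : ℝ) + 1) = w / ((m + 1) / 2) := by field_simp
            rwa [this]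
          · rw [nu_one hε]
            · exact one_ne_zero
            · rw [abs_div, abs_mul, abs_two, abs_of_pos hm', le_div_iff₀ hm']
              nlinarith
        · refine mul_ne_zero ?_ ?_
          · rw [mu_one hε]
            · exact one_ne_zero
            · rw [abs_div, abs_mul, abs_two, abs_of_pos hM, div_le_iff₀ hM]
              nlinarith
          · have e : nu ε (2 * w / m) = mu ε (w' / (m / 2)) := by
              apply nu_refl hε
              rw [abs_div, abs_div, abs_mul, abs_two, abs_of_pos hm',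
                abs_of_pos (by linarith : (0 : ℝ) < m / 2)]
              field_simp
              linarith
            rwa [e]
      have hmu : mu ε (x / c) ≠ 0 ∧ mu ε ((x + k) / c) ≠ 0 := by
        unfold Kc at hne
        split_ifs at hne with h2
        · exact ⟨left_ne_zero_of_mul hne, right_ne_zero_of_mul hne⟩
        · exact absurd rfl hne
      have k1 := key x a1 a2 (x + k) hs hmu.2 hmu.1
      have k2 := key (x + k) a3 a4 x (by rw [add_comm]; exact hs) hmu.1 hmu.2
      exact mul_ne_zero k1 (fun h0 => k2 ((map_eq_zero _).mp h0)) hom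
    rw [hK _ (Or.inl rfl), hK _ (Or.inr rfl)]
    simp
  · -- the product does not vanish
    have n1 : om ε m x ≠ 0 := left_ne_zero_of_mul hom
    have n2 : om ε m (x + k) ≠ 0 := fun h0 => hom (by rw [h0]; simp)
    obtain ⟨a1, a2⟩ := om_supp hε n1
    obtain ⟨a3, a4⟩ := om_supp hε n2
    -- the signs are opposite
    have hsgn : (0 ≤ x ↔ ¬ 0 ≤ x + k) := by
      by_contra hc
      have hc' : (0 ≤ x ↔ 0 ≤ x + k) := by tauto
      have hk1 : |(k : ℝ)| < 1 := by
        by_cases hx : 0 ≤ x
        · have hx' := hc'.mp hx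
          rw [abs_of_nonneg hx] at a1 a2
          rw [abs_of_nonneg hx'] at a3 a4
          rw [abs_lt]
          constructor <;> nlinarith
        · have hx' : ¬ 0 ≤ x + k := fun h' => hx (hc'.mpr h')
          rw [abs_of_neg (not_le.mp hx)] at a1 a2
          rw [abs_of_neg (not_le.mp hx')] at a3 a4
          rw [abs_lt]
          constructor <;> nlinarith
      have hk2 : |k| < 1 := by exact_mod_cast hk1
      exact hk0 (Int.abs_lt_one_iff.mp hk2)
    have hsum : |x| + |x + k| = |(k : ℝ)| := by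
      by_cases hx : 0 ≤ x
      · have hx' := not_le.mp (hsgn.mp hx)
        rw [abs_of_nonneg hx, abs_of_neg hx', abs_of_neg (by linarith : (k : ℝ) < 0)]
        ring
      · have hx' : 0 ≤ x + k := by
          by_contra h'
          exact hx (hsgn.mpr h')
        rw [abs_of_neg (not_le.mp hx), abs_of_nonneg hx',
          abs_of_pos (by linarith [not_le.mp hx] : (0 : ℝ) < k)]
        ring
    have hkabs : |k| = m ∨ |k| = m + 1 := by
      have b1 : (m : ℝ) - 1 < |(k : ℝ)| := by nlinarith
      have b2 : |(k : ℝ)| < m + 2 := by nlinarith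
      have b1' : (m : ℤ) - 1 < |k| := by exact_mod_cast b1
      have b2' : |k| < (m : ℤ) + 2 := by exact_mod_cast b2
      omega
    have hphase : ph m x * conj (ph m (x + k)) = if |k| = m then -1 else 1 := by
      rw [ph_opp m hsgn]
      have hpar : Even k ↔ Even |k| := even_abs.symm
      rcases hkabs with h | h
      · rw [if_pos h]
        by_cases hev : Even m
        · have : Even k := hpar.mpr (by rw [h]; exact_mod_cast hev)
          rw [if_pos hev, this.neg_one_zpow]
          ring
        · have : ¬ Even k := fun h' => hev (by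
            have := hpar.mp h'
            rw [h] at this
            exact_mod_cast this)
          rw [if_neg hev, (Int.not_even_iff_odd.mp this).neg_one_zpow]
          ring
      · have hne : ¬ (|k| = (m : ℤ)) := by rw [h]; omega
        rw [if_neg hne]
        by_cases hev : Even m
        · have : ¬ Even k := fun h' => by
            have h2 := hpar.mp h'
            rw [h] at h2
            have h3 : Even ((m : ℤ)) := by exact_mod_cast hev
            rw [Int.even_add_one] at h2
            exact h2 h3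
          rw [if_pos hev, (Int.not_even_iff_odd.mp this).neg_one_zpow]
          ring
        · have : Even k := hpar.mpr (by
            rw [h, Int.even_add_one]
            exact fun h' => hev (by exact_mod_cast h'))
          rw [if_neg hev, this.neg_one_zpow]
          ring
    have hprod : om ε m x * conj (om ε m (x + k)) =
        ((mu ε (2 * x / (m + 1)) * nu ε (2 * x / m) *
          (mu ε (2 * (x + k) / (m + 1)) * nu ε (2 * (x + k) / m)) : ℝ) : ℂ) *
          (if |k| = m then -1 else 1) := by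
      rw [om_pos hmpos.ne', om_pos hmpos.ne', map_mul, mul_mul_mul_comm, hphase,
        Complex.conj_ofReal, ← Complex.ofReal_mul]
    rw [hprod]
    have ek1 : ((|k| : ℤ) : ℝ) = |(k : ℝ)| := Int.cast_abs
    rcases hkabs with h | h
    · -- inner boundary
      have hkr : |(k : ℝ)| = m := by rw [← ek1, h]; simp
      rw [if_pos h]
      have c1 : Kc ε ((m + 1) / 2) x k = 0 := by
        by_contra hne
        obtain ⟨_, _, hy, _⟩ := Kc_ne hε hε1 hne hk0'
        rw [hkr] at hy
        linarith
      have c2 : Kc ε (m / 2) x k = mu ε (x / (m / 2)) * mu ε ((x + k) / (m / 2)) := by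
        unfold Kc
        rw [if_pos]
        refine ⟨by linarith, ?_⟩
        rcases abs_choice (k : ℝ) with h' | h'
        · exact ⟨1, by rw [← h', hkr]; push_cast; ring⟩
        · exact ⟨-1, by
            have : (k : ℝ) = -m := by linarith
            rw [this]; push_cast; ring⟩
      have d1 : mu ε (2 * x / (m + 1)) = 1 := by
        apply mu_one hε
        rw [abs_div, abs_mul, abs_two, abs_of_pos hM, div_le_iff₀ hM]
        nlinarith
      have d2 : mu ε (2 * (x + k) / (m + 1)) = 1 := by
        apply mu_one hε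
        rw [abs_div, abs_mul, abs_two, abs_of_pos hM, div_le_iff₀ hM]
        nlinarith
      have d3 : nu ε (2 * x / m) = mu ε ((x + k) / (m / 2)) := by
        apply nu_refl hε
        rw [abs_div, abs_div, abs_mul, abs_two, abs_of_pos hm',
          abs_of_pos (by linarith : (0 : ℝ) < m / 2)]
        field_simp
        linarith
      have d4 : nu ε (2 * (x + k) / m) = mu ε (x / (m / 2)) := by
        apply nu_refl hε
        rw [abs_div, abs_div, abs_mul, abs_two, abs_of_pos hm',
          abs_of_pos (by linarith : (0 : ℝ) < m / 2)]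
        field_simp
        linarith
      rw [c1, c2, d1, d2, d3, d4]
      push_cast
      ring
    · -- outer boundary
      have hkr : |(k : ℝ)| = m + 1 := by rw [← ek1, h]; push_cast; ring
      have hne : ¬ (|k| = (m : ℤ)) := by rw [h]; omega
      rw [if_neg hne]
      have c2 : Kc ε (m / 2) x k = 0 := by
        by_contra hne
        obtain ⟨_, _, hy, _⟩ := Kc_ne hε hε1 hne hk0'
        rw [hkr] at hy
        linarith
      have c1 : Kc ε ((m + 1) / 2) x k =
          mu ε (x / ((m + 1) / 2)) * mu ε ((x + k) / ((m + 1) / 2)) := by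
        unfold Kc
        rw [if_pos]
        refine ⟨by linarith, ?_⟩
        rcases abs_choice (k : ℝ) with h' | h'
        · exact ⟨1, by rw [← h', hkr]; push_cast; ring⟩
        · exact ⟨-1, by
            have : (k : ℝ) = -(m + 1) := by linarith
            rw [this]; push_cast; ring⟩
      have d1 : nu ε (2 * x / m) = 1 := by
        apply nu_one hε
        rw [abs_div, abs_mul, abs_two, abs_of_pos hm', le_div_iff₀ hm']
        nlinarith
      have d2 : nu ε (2 * (x + k) / m) = 1 := by
        apply nu_one hε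
        rw [abs_div, abs_mul, abs_two, abs_of_pos hm', le_div_iff₀ hm']
        nlinarith
      have e1 : x / ((m + 1) / 2) = 2 * x / ((m : ℝ) + 1) := by field_simp
      have e2 : (x + k) / ((m + 1) / 2) = 2 * (x + k) / ((m : ℝ) + 1) := by field_simp
      rw [c1, c2, d1, d2, e1, e2]
      push_cast
      ring

end Wav
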