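import Pool.Agent.Helper59.Wav.Win

/-!
# Sums over the lattice of the windows
-/

open Real Set
open scoped ComplexConjugate ENNReal

noncomputable section

namespace Wav

variable {ε : ℝ}

/-- Scaled kernel identity. -/
theorem om_ker_scale (hε : 0 < ε) {m : ℕ} (hm : ε * (2 * m + 3) ≤ 1) {r : ℝ} (hr : r ≠ 0)
    (x y : ℝ) (h : ∃ z : ℤ, y = r * z) :
    om ε m (x / r) * conj (om ε m ((x + y) / r)) =
      ((Kc ε (|r| * (m + 1) / 2) x y - Kc ε (|r| * m / 2) x y : ℝ) : ℂ) := by
  obtain ⟨z, hz⟩ := h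
  have e1 : (x + y) / r = x / r + z := by
    rw [hz]
    field_simp
  have e2 : ((z : ℤ) : ℝ) = y / r := by
    rw [hz]
    field_simp
  rw [e1, om_ker hε hm, e2, Kc_scale _ _ _ hr, Kc_scale _ _ _ hr, mul_div_assoc, mul_div_assoc]

/-- A nonzero kernel value forces a lattice condition. -/
lemma Kc_lat {c x y : ℝ} (h : Kc ε c x y ≠ 0) : 0 < c ∧ ∃ z : ℤ, y = 2 * c * z := by
  unfold Kc at h
  split_ifs at h with h2
  · exact h2
  · exact absurd rfl h

/-- Sum over a range of windows. -/
theorem om_sum (hε : 0 < ε) {a b : ℕ} (hab : a ≤ b) (hb : ε * (2 * b + 1) ≤ 1) (x : ℝ) (k : ℤ) :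
    ∑ m ∈ Finset.Ico a b, om ε m x * conj (om ε m (x + k)) =
      ((Kc ε (b / 2) x k - Kc ε (a / 2) x k : ℝ) : ℂ) := by
  induction b, hab using Nat.le_induction with
  | base => simp
  | succ b hab ih =>
    have hb' : ε * (2 * b + 3) ≤ 1 := by
      push_cast at hb
      linarith
    have hb'' : ε * (2 * b + 1) ≤ 1 := by linarith
    rw [Finset.sum_Ico_succ_top hab, ih hb'', om_ker hε hb']
    push_cast
    ring

/-- The squares of the translates of the basic cutoff sum to one. -/
theorem mu_tsum (hε : 0 < ε) (hε1 : ε < 1) (x : ℝ) :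
    ∑' j : ℤ, ENNReal.ofReal (mu ε (2 * (x + j)) ^ 2) = 1 := by
  set y := Int.fract x with hy
  have hy0 : 0 ≤ y := Int.fract_nonneg x
  have hy1 : y < 1 := Int.fract_lt_one x
  have hx : x = y + ⌊x⌋ := by rw [hy, add_comm]; exact (Int.floor_add_fract x).symm
  have h1 : ∑' j : ℤ, ENNReal.ofReal (mu ε (2 * (x + j)) ^ 2) =
      ∑' j : ℤ, ENNReal.ofReal (mu ε (2 * (y + j)) ^ 2) := by
    rw [← (Equiv.addRight ⌊x⌋).tsum_eq fun j : ℤ => ENNReal.ofReal (mu ε (2 * (y + j)) ^ 2)]
    refine tsum_congr fun j => ?_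
    congr 3
    simp only [Equiv.coe_addRight]
    have e : x + j = y + ((j + ⌊x⌋ : ℤ) : ℝ) := by
      push_cast
      linarith
    rw [e]
  rw [h1, tsum_eq_sum (s := {0, -1})]
  · rw [Finset.sum_pair (by decide)]
    have h2 : mu ε (2 * (y + ((-1 : ℤ) : ℝ))) = nu ε (2 * (y + ((0 : ℤ) : ℝ))) := by
      apply mu_refl hε
      push_cast
      rw [abs_of_nonpos (by linarith), abs_of_nonneg (by linarith)]
      ring
    rw [h2, ← ENNReal.ofReal_add (sq_nonneg _) (sq_nonneg _), mu_sq_add, ENNReal.ofReal_one]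
  · intro j hj
    have hj' : j ≠ 0 ∧ j ≠ -1 := by simpa using hj
    have h3 : 1 ≤ j ∨ j ≤ -2 := by omega
    have : mu ε (2 * (y + j)) = 0 := by
      apply mu_zero hε
      rw [abs_mul, abs_two]
      rcases h3 with h3 | h3
      · have : (1 : ℝ) ≤ j := by exact_mod_cast h3
        rw [abs_of_nonneg (by linarith)]
        linarith
      · have : (j : ℝ) ≤ -2 := by exact_mod_cast h3
        rw [abs_of_nonpos (by linarith)]
        linarith
    rw [this]
    simp

/-- Division with remainder for sums over the integers. -/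
theorem tsum_divmod (f : ℤ → ℝ≥0∞) {P : ℕ} (hP : 0 < P) :
    ∑' q : ℤ, f q = ∑ r ∈ Finset.range P, ∑' j : ℤ, f (P * j + r) := by
  have : NeZero P := ⟨hP.ne'⟩
  rw [← (Int.divModEquiv P).symm.tsum_eq, ENNReal.tsum_prod', ENNReal.tsum_comm, tsum_fintype,
    Finset.sum_range]
  refine Finset.sum_congr rfl fun r _ => tsum_congr fun j => ?_
  congr 1
  simp [Int.divModEquiv]
  ring

theorem mu_tsum_nat (hε : 0 < ε) (hε1 : ε < 1) {c : ℕ} (hc : 0 < c) (x : ℝ) :
    ∑' j : ℤ, ENNReal.ofReal (mu ε (2 * (x + j) / c) ^ 2) = c := by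
  rw [tsum_divmod _ hc]
  have hc' : (0 : ℝ) < c := by exact_mod_cast hc
  have : ∀ r ∈ Finset.range c, ∑' j : ℤ,
      ENNReal.ofReal (mu ε (2 * (x + ((c * j + r : ℤ) : ℝ)) / c) ^ 2) = 1 := by
    intro r _
    rw [← mu_tsum hε hε1 ((x + r) / c)]
    refine tsum_congr fun j => ?_
    congr 3
    push_cast
    field_simp
    ring
  rw [Finset.sum_congr rfl this]
  simp

lemma enorm_sq_eq (z : ℂ) : ‖z‖ₑ ^ 2 = ENNReal.ofReal (‖z‖ ^ 2) := by
  rw [← ofReal_norm, ENNReal.ofReal_pow (norm_nonneg _)]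

/-- The windows have orthonormal translates: unit bracket. -/
theorem om_unit (hε : 0 < ε) {m : ℕ} (hm : ε * (2 * m + 3) ≤ 1) (x : ℝ) :
    ∑' j : ℤ, ‖om ε m (x + j)‖ₑ ^ 2 = 1 := by
  have hm0 : (0 : ℝ) ≤ m := Nat.cast_nonneg m
  have hε1 : ε < 1 := by nlinarith
  have h1 : ∀ y : ℝ, ‖om ε m y‖ ^ 2 = Kc ε ((m + 1) / 2) y 0 - Kc ε (m / 2) y 0 := by
    intro y
    have := om_ker hε hm y 0
    rw [Int.cast_zero, add_zero, Complex.mul_conj, Complex.normSq_eq_norm_sq] at this
    exact_mod_cast this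
  have h2 : ∀ (c : ℕ), 0 < c → ∀ y : ℝ, Kc ε ((c : ℝ) / 2) y 0 = mu ε (2 * y / c) ^ 2 := by
    intro c hc y
    have hc' : (0 : ℝ) < c := by exact_mod_cast hc
    unfold Kc
    rw [if_pos ⟨by linarith, 0, by simp⟩, add_zero, sq]
    congr 2 <;> field_simp
  have h3 : ∑' j : ℤ, ‖om ε m (x + j)‖ₑ ^ 2 + ∑' j : ℤ, ENNReal.ofReal (Kc ε (m / 2) (x + j) 0) =
      ∑' j : ℤ, ENNReal.ofReal (Kc ε ((m + 1) / 2) (x + j) 0) := by
    rw [← ENNReal.tsum_add]
    refine tsum_congr fun j => ?_
    have hK : 0 ≤ Kc ε (m / 2) (x + j) 0 := by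
      unfold Kc
      split_ifs
      · rw [add_zero]
        exact mul_self_nonneg _
      · exact le_rfl
    rw [enorm_sq_eq, ← ENNReal.ofReal_add (sq_nonneg _) hK, h1, sub_add_cancel]
  have h4 : ∑' j : ℤ, ENNReal.ofReal (Kc ε ((m + 1) / 2) (x + j) 0) = (m : ℝ≥0∞) + 1 := by
    have h6 := mu_tsum_nat hε hε1 (Nat.succ_pos m) x
    have h7 : ((m.succ : ℕ) : ℝ≥0∞) = (m : ℝ≥0∞) + 1 := by push_cast; rfl
    rw [← h7, ← h6]
    refine tsum_congr fun j => ?_
    have := h2 (m + 1) (Nat.succ_pos m) (x + j)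
    push_cast at this
    rw [this]
    push_cast
    rfl
  have h5 : ∑' j : ℤ, ENNReal.ofReal (Kc ε (m / 2) (x + j) 0) = (m : ℝ≥0∞) := by
    rcases Nat.eq_zero_or_pos m with rfl | hmp
    · simp [Kc_nonpos]
    · rw [← mu_tsum_nat hε hε1 hmp x]
      exact tsum_congr fun j => by rw [h2 m hmp]
  rw [h4, h5] at h3
  have h6 : (m : ℝ≥0∞) ≠ ∞ := ENNReal.natCast_ne_top m
  rw [add_comm] at h3
  exact (ENNReal.add_right_inj h6).mp h3

/-- The windows are smooth. -/
theorem contDiff_mu (hε : 0 < ε) (hε1 : ε < 1) {n : ℕ∞} : ContDiff ℝ n (mu ε) := by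
  rw [contDiff_iff_contDiffAt]
  intro x
  by_cases hx : x = 0
  · subst hx
    have h1 : mu ε =ᶠ[nhds 0] fun _ => 1 := by
      have : ∀ᶠ y : ℝ in nhds 0, |y| < 1 - ε := by
        have h := (continuous_abs (G := ℝ)).continuousAt (x := 0)
        exact h.eventually_lt continuousAt_const (by simpa using hε1)
      filter_upwards [this] with y hy
      exact mu_one hε hy.le
    exact contDiffAt_const.congr_of_eventuallyEq h1
  · unfold mu
    have h1 : ContDiffAt ℝ n (fun x : ℝ => |x|) x := contDiffAt_abs hx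
    refine Real.contDiff_cos.contDiffAt.comp x ?_
    refine contDiffAt_const.mul ?_
    refine Real.smoothTransition.contDiff.contDiffAt.comp x ?_
    exact ((h1.sub contDiffAt_const).add contDiffAt_const).div_const _

theorem contDiff_nu (hε : 0 < ε) (hε1 : ε < 1) {n : ℕ∞} : ContDiff ℝ n (nu ε) := by
  rw [contDiff_iff_contDiffAt]
  intro x
  by_cases hx : x = 0
  · subst hx
    have h1 : nu ε =ᶠ[nhds 0] fun _ => 0 := by
      have : ∀ᶠ y : ℝ in nhds 0, |y| < 1 - ε := by
        have h := (continuous_abs (G := ℝ)).continuousAt (x := 0)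
        exact h.eventually_lt continuousAt_const (by simpa using hε1)
      filter_upwards [this] with y hy
      exact nu_zero hε hy.le
    exact contDiffAt_const.congr_of_eventuallyEq h1
  · unfold nu
    have h1 : ContDiffAt ℝ n (fun x : ℝ => |x|) x := contDiffAt_abs hx
    refine Real.contDiff_sin.contDiffAt.comp x ?_
    refine contDiffAt_const.mul ?_
    refine Real.smoothTransition.contDiff.contDiffAt.comp x ?_
    exact ((h1.sub contDiffAt_const).add contDiffAt_const).div_const _

theorem contDiff_om (hε : 0 < ε) (hε1 : ε < 1) (m : ℕ) {n : ℕ∞} : ContDiff ℝ n (om ε m) := by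
  rcases Nat.eq_zero_or_pos m with rfl | hm
  · have : om ε 0 = fun x => ((mu ε (2 * x) : ℝ) : ℂ) := by
      funext x
      exact om_zero x
    rw [this]
    exact Complex.ofRealCLM.contDiff.comp ((contDiff_mu hε hε1).comp (contDiff_const.mul contDiff_id))
  · have hm' : (0 : ℝ) < m := by exact_mod_cast hm
    have e : om ε m = fun x => ((mu ε (2 * x / (m + 1)) * nu ε (2 * x / m) : ℝ) : ℂ) * ph m x := by
      funext x
      exact om_pos hm.ne' x
    rw [e, contDiff_iff_contDiffAt]
    intro x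
    by_cases hx : x = 0
    · subst hx
      have h1 : (fun x : ℝ => ((mu ε (2 * x / (m + 1)) * nu ε (2 * x / m) : ℝ) : ℂ) * ph m x)
          =ᶠ[nhds 0] fun _ => 0 := by
        have : ∀ᶠ y : ℝ in nhds 0, |2 * y / m| < 1 - ε := by
          have h : ContinuousAt (fun y : ℝ => |2 * y / m|) 0 := by fun_prop
          exact h.eventually_lt continuousAt_const (by simpa using hε1)
        filter_upwards [this] with y hy
        rw [nu_zero hε hy.le]
        simp
      exact contDiffAt_const.congr_of_eventuallyEq h1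
    · refine ContDiffAt.mul ?_ ?_
      · refine Complex.ofRealCLM.contDiff.contDiffAt.comp x ?_
        exact (((contDiff_mu hε hε1).comp ((contDiff_const.mul contDiff_id).div_const _)).mul
          ((contDiff_nu hε hε1).comp ((contDiff_const.mul contDiff_id).div_const _))).contDiffAt
      · -- the phase is smooth away from zero
        have h2 : ph m =ᶠ[nhds x] fun y => (if Even m then (if 0 ≤ x then 1 else -1) else 1) *
            Complex.exp (π * Complex.I * (y : ℂ)) := by
          have : ∀ᶠ y : ℝ in nhds x, (0 ≤ y ↔ 0 ≤ x) := by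
            rcases lt_or_gt_of_ne hx with h | h
            · filter_upwards [eventually_lt_nhds h] with y hy
              constructor
              · intro h'; linarith
              · intro h'; linarith
            · filter_upwards [eventually_gt_nhds h] with y hy
              exact ⟨fun _ => h.le, fun _ => hy.le⟩
          filter_upwards [this] with y hy
          unfold ph
          by_cases h : 0 ≤ x
          · simp [h, hy.mpr h]
          · have h' : ¬ 0 ≤ y := fun h'' => h (hy.mp h'')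
            simp [h, h']
        refine ContDiffAt.congr_of_eventuallyEq ?_ h2
        refine contDiffAt_const.mul ?_
        refine Complex.contDiff_exp.contDiffAt.comp x ?_
        exact contDiffAt_const.mul Complex.ofRealCLM.contDiff.contDiffAt

end Wav
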